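import Mathlib
import Pool.Agent.R256.Haus4

set_option autoImplicit false

open MeasureTheory Filter Topology Set

namespace Pool.Agent.Results.MP_fbd0a7_an.AllInfinite

noncomputable section

/-- upper envelope `S(f;x)` of a bounded function (the point `x` itself is included) -/
def S (f : ℝ → ℝ) (x : ℝ) : ℝ := limsup f (𝓝 x)

/-- lower envelope `I(f;x)` -/
def I (f : ℝ → ℝ) (x : ℝ) : ℝ := liminf f (𝓝 x)

/-- the completed graph of `f` -/
def graph (f : ℝ → ℝ) : Set (ℝ × ℝ) := {q | I f q.1 ≤ q.2 ∧ q.2 ≤ S f q.1}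

/-- the distance `ρ_α` in the plane -/
def dist (α : ℝ) (A B : ℝ × ℝ) : ℝ := max (α⁻¹ * |A.1 - B.1|) |A.2 - B.2|

/-- the Hausdorff distance `r(α; f, g)` with parameter `α` -/
def r (α : ℝ) (f g : ℝ → ℝ) : ℝ :=
  max (⨆ A : graph f, ⨅ B : graph g, dist α A B) (⨆ A : graph g, ⨅ B : graph f, dist α A B)

/-- the Gauss–Weierstrass operator `W_n` -/
def W (n : ℕ) (f : ℝ → ℝ) (x : ℝ) : ℝ :=
  Real.sqrt (n / Real.pi) * ∫ t, f t * Real.exp (-n * (t - x) ^ 2)

/-- the Abel–Poisson operator `P_ρ` -/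
def P (ρ : ℝ) (f : ℝ → ℝ) (x : ℝ) : ℝ :=
  1 / (2 * Real.pi) * ∫ t in (-Real.pi)..Real.pi,
    f (x - t) * ((1 - ρ ^ 2) / (1 - 2 * ρ * Real.cos t + ρ ^ 2))

/-- the de la Vallée-Poussin operator `V_n` -/
def V (n : ℕ) (f : ℝ → ℝ) (x : ℝ) : ℝ :=
  ((n.factorial : ℝ) ^ 2 / (2 * Real.pi * ((2 * n).factorial : ℝ))) *
    ∫ t in (-Real.pi)..Real.pi, f (x - t) * (2 * Real.cos (t / 2)) ^ (2 * n)

/-- bounded Lebesgue measurable functions on the line -/
def Adm (f : ℝ → ℝ) : Prop := AEMeasurable f volume ∧ ∃ M : ℝ, ∀ t, |f t| ≤ M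

/-- `limsup_n α √n r(α; f, W_n f)`, as an extended real -/
def LW (α : ℝ) (f : ℝ → ℝ) : EReal :=
  limsup (fun n : ℕ => ((α * Real.sqrt n * r α f (W n f) : ℝ) : EReal)) atTop

/-- `limsup_{ρ → 1-} (α/(1-ρ)) r(α; f, P_ρ f)`, as an extended real -/
def LP (α : ℝ) (f : ℝ → ℝ) : EReal :=
  limsup (fun ρ : ℝ => ((α / (1 - ρ) * r α f (P ρ f) : ℝ) : EReal)) (𝓝[<] 1)

/-- `limsup_n α √n r(α; f, V_n f)`, as an extended real -/
def LV (α : ℝ) (f : ℝ → ℝ) : EReal :=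
  limsup (fun n : ℕ => ((α * Real.sqrt n * r α f (V n f) : ℝ) : EReal)) atTop

/-- the constant `c_W^*` -/
def cW (α : ℝ) : EReal :=
  sSup ((fun c : ℝ => (c : EReal)) '' {c | ∀ f : ℝ → ℝ, Adm f → LW α f < (c : EReal) → Continuous f})

/-- the constant `c_P^*` -/
def cP (α : ℝ) : EReal :=
  sSup ((fun c : ℝ => (c : EReal)) '' {c | ∀ f : ℝ → ℝ, Adm f → Function.Periodic f (2 * Real.pi) →
    LP α f < (c : EReal) → Continuous f})

/-- the constant `c_V^*` -/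
def cV (α : ℝ) : EReal :=
  sSup ((fun c : ℝ => (c : EReal)) '' {c | ∀ f : ℝ → ℝ, Adm f → Function.Periodic f (2 * Real.pi) →
    LV α f < (c : EReal) → Continuous f})

lemma sSup_top {A : Set ℝ} (h : ∀ c, c ∈ A) : sSup ((fun c : ℝ => (c : EReal)) '' A) = ⊤ := by
  rw [EReal.eq_top_iff_forall_lt]
  intro y
  refine lt_of_lt_of_le (EReal.coe_lt_coe_iff.mpr (lt_add_one y)) ?_
  exact le_sSup ⟨y + 1, h _, rfl⟩

lemma contW {α : ℝ} (hα : 0 < α) {f : ℝ → ℝ} (hf : Adm f) {c : ℝ} (h : LW α f < (c : EReal)) :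
    Continuous f := by
  obtain ⟨hm, M, hM⟩ := hf
  refine Pool.Agent.R256.Haus.cont_W hm.aestronglyMeasurable hM hα (C := c) ?_
  have := eventually_lt_of_limsup_lt h
  filter_upwards [this] with n hn
  exact EReal.coe_lt_coe_iff.mp hn

lemma contP {α : ℝ} (hα : 0 < α) {f : ℝ → ℝ} (hf : Adm f) {c : ℝ} (h : LP α f < (c : EReal)) :
    Continuous f := by
  obtain ⟨hm, M, hM⟩ := hf
  refine Pool.Agent.R256.Haus.cont_P hm.aestronglyMeasurable hM hα (C := c) ?_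
  have := eventually_lt_of_limsup_lt h
  filter_upwards [this] with n hn
  exact EReal.coe_lt_coe_iff.mp hn

lemma contV {α : ℝ} (hα : 0 < α) {f : ℝ → ℝ} (hf : Adm f) {c : ℝ} (h : LV α f < (c : EReal)) :
    Continuous f := by
  obtain ⟨hm, M, hM⟩ := hf
  refine Pool.Agent.R256.Haus.cont_V hm.aestronglyMeasurable hM hα (C := c) ?_
  have := eventually_lt_of_limsup_lt h
  filter_upwards [this] with n hn
  exact EReal.coe_lt_coe_iff.mp hn

/-- All three constants are infinite: for every `α > 0`, `c_W^* = c_P^* = c_V^* = ∞`; moreover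
finiteness of each of the three upper limits forces continuity (periodicity is not needed). -/
theorem result (α : ℝ) (hα : 0 < α) :
    (cW α = ⊤ ∧ cP α = ⊤ ∧ cV α = ⊤) ∧
    (∀ f : ℝ → ℝ, Adm f → (LW α f < ⊤ ∨ LP α f < ⊤ ∨ LV α f < ⊤) → Continuous f) := by
  refine ⟨⟨sSup_top fun c f hf h => contW hα hf h, sSup_top fun c f hf _ h => contP hα hf h,
    sSup_top fun c f hf _ h => contV hα hf h⟩, ?_⟩
  rintro f hf (h | h | h)
  · obtain ⟨c, hc, -⟩ := EReal.lt_iff_exists_real_btwn.mp h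
    exact contW hα hf hc
  · obtain ⟨c, hc, -⟩ := EReal.lt_iff_exists_real_btwn.mp h
    exact contP hα hf hc
  · obtain ⟨c, hc, -⟩ := EReal.lt_iff_exists_real_btwn.mp h
    exact contV hα hf hc

end

end Pool.Agent.Results.MP_fbd0a7_an.AllInfinite
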